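import Pool.Agent.H12.UT.Targets2

/-!
MP_8b378c_ag, board utn_modules, row LD: the field `ℚ(p, q, r)` over `ℚ(x, y, z)`.
-/

namespace Pool.Agent.H46.UT

open Polynomial Pool.Agent.H12.UT

theorem ufdS3 : UniqueFactorizationMonoid S3 :=
  UniqueFactorizationMonoid.of_isLocalization (Submonoid.powers
    (MvPolynomial.X 0 * MvPolynomial.X 1 * MvPolynomial.X 2 : MvPolynomial (Fin 3) ℚ)) S3

theorem N3_mul {S : Type*} [CommRing S] (σ : Fin 3 → S ≃+* S) (f g : S) :
    N3 σ (f * g) = N3 σ f * N3 σ g := by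
  simp only [N3, map_mul]
  ring

theorem N3_pow {S : Type*} [CommRing S] (σ : Fin 3 → S ≃+* S) (f : S) (n : ℕ) :
    N3 σ (f ^ n) = N3 σ f ^ n := by
  simp only [N3, map_pow]
  ring

theorem N3_map {S T : Type*} [CommRing S] [CommRing T] (σ : Fin 3 → S ≃+* S)
    (τ : Fin 3 → T ≃+* T) (h : S →+* T) (hc : ∀ i x, τ i (h x) = h (σ i x)) (f : S) :
    N3 τ (h f) = h (N3 σ f) := by
  simp only [N3, map_mul, hc]

theorem N3_ne {S : Type*} [CommRing S] [IsDomain S] (σ : Fin 3 → S ≃+* S) (f : S) (hf : f ≠ 0) :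
    N3 σ f ≠ 0 := by
  have h : ∀ (i : Fin 3) (x : S), x ≠ 0 → σ i x ≠ 0 := fun i x hx =>
    (map_ne_zero_iff (σ i) (σ i).injective).mpr hx
  unfold N3
  exact mul_ne_zero (mul_ne_zero (mul_ne_zero (mul_ne_zero (mul_ne_zero (mul_ne_zero (mul_ne_zero
    hf (h _ _ hf)) (h _ _ hf)) (h _ _ hf)) (h _ _ (h _ _ hf))) (h _ _ (h _ _ hf)))
    (h _ _ (h _ _ hf))) (h _ _ (h _ _ (h _ _ hf)))

theorem neg_one_S3 (r : S3) : r ^ 2 ≠ -1 := by
  intro h
  have hu : IsUnit ((MvPolynomial.eval (fun _ : Fin 3 => (1 : ℚ)))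
      (MvPolynomial.X 0 * MvPolynomial.X 1 * MvPolynomial.X 2 : MvPolynomial (Fin 3) ℚ)) := by
    simp
  have h2 := congrArg (IsLocalization.Away.lift (S := S3) _ hu) h
  rw [map_pow, map_neg, map_one] at h2
  nlinarith [sq_nonneg ((IsLocalization.Away.lift (S := S3) _ hu) r)]

theorem xS_ne (i : Fin 3) : algebraMap S3 (FractionRing S3) (xS i) ≠ 0 := by
  have h1 : xS i ≠ 0 := by
    unfold xS
    refine (map_ne_zero_iff _ ?_).mpr (MvPolynomial.X_ne_zero i)
    exact IsLocalization.injective (M := Submonoid.powers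
      (MvPolynomial.X 0 * MvPolynomial.X 1 * MvPolynomial.X 2 : MvPolynomial (Fin 3) ℚ)) S3
      (powers_le_nonZeroDivisors_of_noZeroDivisors
      (mul_ne_zero (mul_ne_zero (MvPolynomial.X_ne_zero _) (MvPolynomial.X_ne_zero _))
      (MvPolynomial.X_ne_zero _)))
  exact (map_ne_zero_iff _ (IsFractionRing.injective S3 (FractionRing S3))).mpr h1

theorem aux1 {F : Type*} [Field F] (x : F) : (-x⁻¹ - (-x⁻¹)⁻¹) / 2 = (x - x⁻¹) / 2 := by
  rw [inv_neg, inv_inv]
  ring

theorem aux2 {F : Type*} [Field F] (a b : F) (hb : b ≠ 0) : a / b * b ^ 8 = a * b ^ 7 := by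
  field_simp

theorem pf_LD : T_LD := by
  intro hufd hsig huni husq hphi
  haveI := ufdS3
  obtain ⟨φ, hφ⟩ := hphi
  obtain ⟨σ, h1, h2, h3, h4⟩ := hsig
  let L := FractionRing S3
  let ι : S3 →+* L := algebraMap S3 L
  have hιinj : Function.Injective ι := IsFractionRing.injective S3 L
  let τ : Fin 3 → L ≃+* L := fun i => IsFractionRing.ringEquivOfRingEquiv (σ i)
  have hτ : ∀ i x, τ i (ι x) = ι (σ i x) := fun i x =>
    IsFractionRing.ringEquivOfRingEquiv_algebraMap (σ i) x
  have hp0 : ∀ i, ι (xS i) ≠ 0 := fun i => xS_ne i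
  have hsp : ∀ i, τ i (ι (xS i)) = -(ι (xS i))⁻¹ := by
    intro i
    rw [hτ]
    have := congrArg ι (h1 i)
    rw [map_mul, map_neg, map_one] at this
    rw [← mul_left_inj' (hp0 i), this, neg_mul, inv_mul_cancel₀ (hp0 i)]
  have hsq : ∀ i j, i ≠ j → τ i (ι (xS j)) = ι (xS j) := by
    intro i j hij
    rw [hτ, h2 i j hij]
  have hfix : ∀ i (c : Kap), τ i (φ c) = φ c := by
    intro i c
    have : ((τ i : L →+* L).comp φ) = φ := by
      refine IsLocalization.ringHom_ext (nonZeroDivisors (MvPolynomial (Fin 3) ℚ)) ?_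
      refine MvPolynomial.ringHom_ext ?_ ?_
      · intro r
        exact congrFun (congrArg DFunLike.coe (Subsingleton.elim
          ((((τ i : L →+* L).comp φ).comp (algebraMap (MvPolynomial (Fin 3) ℚ) Kap)).comp
            MvPolynomial.C)
          ((φ.comp (algebraMap (MvPolynomial (Fin 3) ℚ) Kap)).comp MvPolynomial.C))) r
      · intro j
        change τ i (φ (xx j)) = φ (xx j)
        rw [hφ j]
        change τ i ((ι (xS j) - (ι (xS j))⁻¹) / 2) = (ι (xS j) - (ι (xS j))⁻¹) / 2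
        rw [map_div₀, map_sub, map_inv₀]
        have h22 : τ i 2 = 2 := map_ofNat _ 2
        rw [h22]
        by_cases hij : i = j
        · subst hij
          rw [hsp]
          exact aux1 _
        · rw [hsq i j hij]
    exact congrFun (congrArg DFunLike.coe this) c
  let _ : Algebra Kap L := φ.toAlgebra
  have halg : ∀ c, algebraMap Kap L c = φ c := fun c => rfl
  let s : Fin 3 → L ≃ₐ[Kap] L := fun i => AlgEquiv.ofRingEquiv (f := τ i) (hfix i)
  have hs : ∀ i x, s i x = τ i x := fun i x => rfl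
  refine ⟨L, inferInstance, inferInstance, s, fun i => ι (xS i), ?_⟩
  refine ⟨hp0, fun i => ?_, fun i => ?_, fun i j hij => ?_, ?_, ?_⟩
  · rw [halg, hφ i]
  · rw [hs, hsp]
  · rw [hs, hsq i j hij]
  · rw [eq_top_iff]
    intro l _
    have hpoly : ∀ P : MvPolynomial (Fin 3) ℚ, ι (algebraMap (MvPolynomial (Fin 3) ℚ) S3 P) ∈
        IntermediateField.adjoin Kap (Set.range fun i => ι (xS i)) := by
      intro P
      induction P using MvPolynomial.induction_on with
      | C r =>
        have : ι (algebraMap (MvPolynomial (Fin 3) ℚ) S3 (MvPolynomial.C r)) =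
            algebraMap Kap L (algebraMap (MvPolynomial (Fin 3) ℚ) Kap (MvPolynomial.C r)) := by
          exact congrFun (congrArg DFunLike.coe (Subsingleton.elim
            ((ι.comp (algebraMap (MvPolynomial (Fin 3) ℚ) S3)).comp MvPolynomial.C)
            (((algebraMap Kap L).comp (algebraMap (MvPolynomial (Fin 3) ℚ) Kap)).comp
              MvPolynomial.C))) r
        rw [this]
        exact IntermediateField.algebraMap_mem _ _
      | add p q hp hq =>
        rw [map_add, map_add]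
        exact add_mem hp hq
      | mul_X p i hp =>
        rw [map_mul, map_mul]
        exact mul_mem hp (IntermediateField.subset_adjoin _ _ ⟨i, rfl⟩)
    have hS : ∀ a : S3, ι a ∈ IntermediateField.adjoin Kap (Set.range fun i => ι (xS i)) := by
      intro a
      obtain ⟨⟨x, y⟩, hxy⟩ := IsLocalization.surj (Submonoid.powers
        (MvPolynomial.X 0 * MvPolynomial.X 1 * MvPolynomial.X 2 : MvPolynomial (Fin 3) ℚ)) a
      have hy : algebraMap (MvPolynomial (Fin 3) ℚ) S3 y ≠ 0 :=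
        (IsLocalization.map_units S3 y).ne_zero
      have hy' : ι (algebraMap (MvPolynomial (Fin 3) ℚ) S3 y) ≠ 0 :=
        (map_ne_zero_iff ι hιinj).mpr hy
      have : ι a = ι (algebraMap (MvPolynomial (Fin 3) ℚ) S3 x) /
          ι (algebraMap (MvPolynomial (Fin 3) ℚ) S3 y) := by
        rw [eq_div_iff hy', ← map_mul, hxy]
      rw [this]
      exact div_mem (hpoly x) (hpoly y)
    obtain ⟨x, y, hy, rfl⟩ := IsFractionRing.div_surjective (A := S3) l
    exact div_mem (hS x) (hS y)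
  · intro f t hf ht hN
    have hN3 : ∀ x : L, N3 (fun i => (s i).toRingEquiv) x = N3 τ x := fun x => rfl
    rw [hN3] at hN
    obtain ⟨F, D, hD, hFD⟩ := IsFractionRing.div_surjective (A := S3) f
    have hD0 : D ≠ 0 := nonZeroDivisors.ne_zero hD
    have hF0 : F ≠ 0 := by
      rintro rfl
      apply hf
      rw [← hFD, map_zero, zero_div]
    have hd : ι D ≠ 0 := (map_ne_zero_iff ι hιinj).mpr hD0
    have hfd : f * ι D ^ 8 = ι (F * D ^ 7) := by
      rw [← hFD]
      change ι F / ι D * ι D ^ 8 = _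
      rw [map_mul, map_pow]
      exact aux2 _ _ hd
    have hkey : ι (N3 σ (F * D ^ 7)) = -(t * N3 τ (ι D) ^ 4) ^ 2 := by
      rw [← N3_map σ τ ι hτ, ← hfd, N3_mul, N3_pow, hN]
      ring
    have hint : ∃ q : S3, ι q = t * N3 τ (ι D) ^ 4 := by
      refine IsIntegrallyClosed.exists_algebraMap_eq_of_isIntegral_pow (R := S3) (n := 2)
        (by norm_num) ?_
      have : (t * N3 τ (ι D) ^ 4) ^ 2 = algebraMap S3 L (-N3 σ (F * D ^ 7)) := by
        rw [map_neg]
        change _ = - ι (N3 σ (F * D ^ 7))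
        rw [hkey, neg_neg]
      rw [this]
      exact isIntegral_algebraMap
    obtain ⟨q, hq⟩ := hint
    have hq0 : q ≠ 0 := by
      rintro rfl
      rw [map_zero] at hq
      exact mul_ne_zero ht (pow_ne_zero 4 (N3_ne τ _ hd)) hq.symm
    have hkey2 : N3 σ (F * D ^ 7) = (-1) * q ^ 2 := by
      apply hιinj
      rw [hkey, map_mul, map_pow, hq, map_neg, map_one]
      ring
    obtain ⟨hu1, hu2⟩ := husq huni σ h1 h2
    obtain ⟨w, hw⟩ := hufd S3 σ h3 h4 hu1 hu2 (F * D ^ 7) (mul_ne_zero hF0 (pow_ne_zero 7 hD0))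
      (-1) q (isUnit_one.neg) hkey2
    have hιq : ι q ≠ 0 := (map_ne_zero_iff ι hιinj).mpr hq0
    have hr : (ι w / ι q) ^ 2 = -1 := by
      rw [div_pow, div_eq_iff (pow_ne_zero 2 hιq)]
      have := congrArg ι (hw.symm.trans hkey2)
      rw [map_mul, map_mul, map_neg, map_one, map_pow] at this
      linear_combination this
    have hint2 : ∃ r : S3, ι r = ι w / ι q := by
      refine IsIntegrallyClosed.exists_algebraMap_eq_of_isIntegral_pow (R := S3) (n := 2)
        (by norm_num) ?_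
      rw [hr]
      exact isIntegral_one.neg
    obtain ⟨r, hr2⟩ := hint2
    apply neg_one_S3 r
    apply hιinj
    rw [map_pow, hr2, hr, map_neg, map_one]

end Pool.Agent.H46.UT
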