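import Pool.Agent.H12.UT.Targets2

/-!
MP_8b378c_ag, board utn_modules, row USQ: norms of units are squares.
-/

namespace Pool.Agent.H46.UT

open Polynomial Pool.Agent.H12.UT

theorem sq_of_hom {S : Type*} [CommRing S] [Algebra ℚ S] (x : Fin 3 → S) (w : S)
    (hw : ∃ (c : ℚ) (m k : Fin 3 → ℕ), c ≠ 0 ∧
      w * ∏ i, x i ^ m i = algebraMap ℚ S c * ∏ i, x i ^ k i)
    (M : S →* S) (hM : ∀ k, ∃ t : S, IsUnit t ∧ M (x k) = t ^ 2)
    (hc : ∀ c : ℚ, IsSquare (M (algebraMap ℚ S c))) : IsSquare (M w) := by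
  obtain ⟨c, m, k, hc0, h⟩ := hw
  choose t ht hMt using hM
  obtain ⟨r, hr⟩ := hc c
  have h2 := congrArg M h
  rw [map_mul, map_mul, map_prod, map_prod, hr] at h2
  simp only [map_pow, hMt] at h2
  have e1 : ∀ n : Fin 3 → ℕ, ∏ i, (t i ^ 2) ^ n i = (∏ i, t i ^ n i) ^ 2 := by
    intro n
    rw [← Finset.prod_pow]
    exact Finset.prod_congr rfl fun i _ => by rw [← pow_mul, ← pow_mul, mul_comm]
  rw [e1, e1] at h2
  have hu : IsUnit (∏ i, t i ^ m i) := by
    rw [IsUnit.prod_univ_iff]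
    exact fun i => (ht i).pow _
  obtain ⟨v, hv⟩ := hu
  rw [← hv] at h2
  refine ⟨r * (∏ i, t i ^ k i) * (↑v⁻¹ : S), ?_⟩
  have hvv : (v : S) * (↑v⁻¹ : S) = 1 := v.mul_inv
  calc M w = M w * ((v : S) * (↑v⁻¹ : S)) ^ 2 := by rw [hvv]; ring
    _ = (M w * (v : S) ^ 2) * (↑v⁻¹ : S) ^ 2 := by ring
    _ = _ := by rw [h2]; ring

theorem usq_gen {S : Type*} [CommRing S] [Algebra ℚ S] (x : Fin 3 → S)
    (huni : ∀ w : S, IsUnit w → ∃ (c : ℚ) (m k : Fin 3 → ℕ), c ≠ 0 ∧
      w * ∏ i, x i ^ m i = algebraMap ℚ S c * ∏ i, x i ^ k i)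
    (σ : Fin 3 → S ≃+* S) (h1 : ∀ i, σ i (x i) * x i = -1)
    (h2 : ∀ i j, i ≠ j → σ i (x j) = x j) :
    (∀ w : S, IsUnit w → IsSquare (N3 σ w)) ∧
    (∀ w : S, IsUnit w → ∀ i j, i ≠ j → IsSquare (w * σ i w * σ j w * σ i (σ j w))) := by
  have hconst : ∀ i (c : ℚ), σ i (algebraMap ℚ S c) = algebraMap ℚ S c := by
    intro i c
    exact congrFun (congrArg DFunLike.coe (Subsingleton.elim
      ((σ i : S →+* S).comp (algebraMap ℚ S)) (algebraMap ℚ S))) c
  set y : Fin 3 → S := fun k => σ k (x k) with hy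
  have hyx : ∀ k, y k * x k = -1 := h1
  have hxu : ∀ k, IsUnit (x k) := fun k =>
    IsUnit.of_mul_eq_one (-y k) (by rw [mul_neg, mul_comm, hyx, neg_neg])
  have hyu : ∀ k, IsUnit (y k) := fun k =>
    IsUnit.of_mul_eq_one (-x k) (by rw [mul_neg, hyx, neg_neg])
  have hs1 : ∀ k, σ k (x k) = y k := fun k => rfl
  have hs2 : ∀ k, σ k (y k) = x k := by
    intro k
    have := congrArg (σ k) (hyx k)
    rw [map_mul, map_neg, map_one, hs1] at this
    exact (hyu k).mul_right_cancel (by rw [this, mul_comm, hyx])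
  have hs3 : ∀ i k, i ≠ k → σ i (x k) = x k := h2
  have hs4 : ∀ i k, i ≠ k → σ i (y k) = y k := by
    intro i k hik
    have := congrArg (σ i) (hyx k)
    rw [map_mul, map_neg, map_one, hs3 i k hik] at this
    exact (hxu k).mul_right_cancel (by rw [this, hyx])
  have n01 : (0 : Fin 3) ≠ 1 := by decide
  have n02 : (0 : Fin 3) ≠ 2 := by decide
  have n12 : (1 : Fin 3) ≠ 2 := by decide
  refine ⟨fun w hw => ?_, fun w hw i j hij => ?_⟩
  · let M : S →* S :=
      { toFun := N3 σ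
        map_one' := by simp only [N3, map_one, mul_one]
        map_mul' := fun a b => by simp only [N3, map_mul]; ring }
    refine sq_of_hom x w (huni w hw) M ?_ ?_
    · intro k
      refine ⟨1, isUnit_one, ?_⟩
      change N3 σ (x k) = 1 ^ 2
      have hk : N3 σ (x k) = (y k * x k) ^ 4 := by
        unfold N3
        fin_cases k
        · change x 0 * σ 0 (x 0) * σ 1 (x 0) * σ 2 (x 0) * σ 0 (σ 1 (x 0)) *
            σ 0 (σ 2 (x 0)) * σ 1 (σ 2 (x 0)) * σ 0 (σ 1 (σ 2 (x 0))) = (y 0 * x 0) ^ 4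
          rw [hs3 2 0 n02.symm, hs3 1 0 n01.symm, hs1]
          ring
        · change x 1 * σ 0 (x 1) * σ 1 (x 1) * σ 2 (x 1) * σ 0 (σ 1 (x 1)) *
            σ 0 (σ 2 (x 1)) * σ 1 (σ 2 (x 1)) * σ 0 (σ 1 (σ 2 (x 1))) = (y 1 * x 1) ^ 4
          rw [hs3 2 1 n12.symm, hs3 0 1 n01, hs1, hs4 0 1 n01]
          ring
        · change x 2 * σ 0 (x 2) * σ 1 (x 2) * σ 2 (x 2) * σ 0 (σ 1 (x 2)) *
            σ 0 (σ 2 (x 2)) * σ 1 (σ 2 (x 2)) * σ 0 (σ 1 (σ 2 (x 2))) = (y 2 * x 2) ^ 4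
          rw [hs3 0 2 n02, hs3 1 2 n12, hs1, hs4 0 2 n02, hs4 1 2 n12, hs3 0 2 n02, hs4 0 2 n02]
          ring
      rw [hk, hyx]
      norm_num
    · intro c
      refine ⟨(algebraMap ℚ S c) ^ 4, ?_⟩
      change N3 σ (algebraMap ℚ S c) = _
      simp only [N3, hconst]
      ring
  · let M : S →* S :=
      { toFun := fun w => w * σ i w * σ j w * σ i (σ j w)
        map_one' := by simp only [map_one, mul_one]
        map_mul' := fun a b => by simp only [map_mul]; ring }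
    refine sq_of_hom x w (huni w hw) M ?_ ?_
    · intro k
      by_cases hki : i = k
      · subst hki
        refine ⟨1, isUnit_one, ?_⟩
        change x i * σ i (x i) * σ j (x i) * σ i (σ j (x i)) = 1 ^ 2
        rw [hs3 j i hij.symm, hs1]
        have : x i * y i * x i * y i = (y i * x i) ^ 2 := by ring
        rw [this, hyx]
        norm_num
      · by_cases hkj : j = k
        · subst hkj
          refine ⟨1, isUnit_one, ?_⟩
          change x j * σ i (x j) * σ j (x j) * σ i (σ j (x j)) = 1 ^ 2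
          rw [hs3 i j hij, hs1, hs4 i j hij]
          have : x j * x j * y j * y j = (y j * x j) ^ 2 := by ring
          rw [this, hyx]
          norm_num
        · refine ⟨x k ^ 2, (hxu k).pow 2, ?_⟩
          change x k * σ i (x k) * σ j (x k) * σ i (σ j (x k)) = (x k ^ 2) ^ 2
          rw [hs3 j k hkj, hs3 i k hki]
          ring
    · intro c
      refine ⟨(algebraMap ℚ S c) ^ 2, ?_⟩
      change algebraMap ℚ S c * σ i (algebraMap ℚ S c) * σ j (algebraMap ℚ S c) *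
        σ i (σ j (algebraMap ℚ S c)) = _
      simp only [hconst]
      ring

theorem pf_USQ : T_USQ := fun huni σ h1 h2 => usq_gen xS huni σ h1 h2

end Pool.Agent.H46.UT
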